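import Pool.Agent.H98.EX.LTargets
import Pool.Agent.H36.EX.FHL

/-!
# Row NRX of exa: the pairs near a pair
-/

set_option autoImplicit false

open MeasureTheory ProbabilityTheory Filter Topology
open scoped ENNReal
open Pool.Agent.H95 Pool.Agent.H95.Cop
open Pool.Agent.H98.EX
open Pool.Agent.H36.EX (ps H_eq_ps NL_eq NR_eq one_le_NL one_le_NR)

namespace Pool.Agent.H80.EX

private theorem sum_near (f : ℕ → ℝ) {R c : ℕ} (h : R ≤ c) :
    ∑ i ∈ Finset.Icc (c - R) (c + R), f i = ∑ i ∈ Finset.range (R + (1 + R)), f (c - R + i) := by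
  have h1 : Finset.Icc (c - R) (c + R) = Finset.Ico (c - R) (c + R + 1) := by
    ext i
    rw [Finset.mem_Icc, Finset.mem_Ico]
    omega
  rw [h1, Finset.sum_Ico_eq_sum_range, show c + R + 1 - (c - R) = R + (1 + R) by omega]

theorem pf_NRX : T_NRX := by
  intro y R a b hR hab
  refine ⟨?_, one_le_NL R y a, one_le_NR R y b⟩
  unfold RT NS
  rw [Finset.sum_product, sum_near _ hR, NL_eq R y a hR, NR_eq R y b (by omega),
    Finset.sum_mul_sum]
  apply Finset.sum_congr rfl
  intro i hi
  rw [sum_near _ (show R ≤ b by omega)]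
  apply Finset.sum_congr rfl
  intro j hj
  rw [Finset.mem_range] at hi hj
  rw [← Real.exp_add, H_eq_ps y (by omega : a ≤ b + 1),
    H_eq_ps y (by omega : a - R + i ≤ b - R + j + 1)]
  congr 1
  ring

end Pool.Agent.H80.EX
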