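import Pool.Agent.H98.EX.LTargets
import Pool.Agent.H98.CEL.STA

/-!
# Row STX of exa: one step of the recursion (model: `Pool.Agent.H98.CEL.pf_STA`)
-/

set_option autoImplicit false

open MeasureTheory ProbabilityTheory Filter Topology
open scoped ENNReal
open Pool.Agent.H95 Pool.Agent.H95.Cop
open Pool.Agent.H55.CG (VV Mo)
open Pool.Agent.H98.CE (pc WB HK OBJ nx Fl lk)
open Pool.Agent.H98.SLN (RG TS MM YY sd)
open Pool.Agent.H98.EX
open Pool.Agent.H98.CEL (ev_lt numbers nx_scale const_one const_two)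

namespace Pool.Agent.H80.EX

/-- the root of the weight of a jump -/
private theorem kpow (x r α : ℝ) (hx0 : 0 < x) (hx1 : x ≤ 1 / 4) (hr : 0 < r) (hr1 : r ≤ 1 / 64)
    (hα0 : 1 - x ^ 4 ≤ α) (hα1 : α ≤ 1) (hy : Real.exp (-(1 / x)) ≤ (1 - r) * x ^ 2 / 2) :
    (1 - r) * x ^ 2 / 2 * (1 - x) ≤ ((1 - r) ^ 2 * x ^ 4 / 4) ^ (1 / (1 + α)) := by
  obtain ⟨y, hyd⟩ : ∃ y : ℝ, y = (1 - r) * x ^ 2 / 2 := ⟨_, rfl⟩
  rw [← hyd] at hy ⊢
  have hr2 : 0 < 1 - r := by linarith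
  have hy0 : 0 < y := by rw [hyd]; positivity
  have hx4 : x ^ 4 ≤ 1 / 4 := by
    have h1 : x ^ 4 ≤ (1 / 4 : ℝ) ^ 4 := pow_le_pow_left₀ hx0.le hx1 4
    refine h1.trans ?_
    norm_num
  have hx40 : 0 < x ^ 4 := by positivity
  have hy1 : y ≤ 1 := by
    rw [hyd]
    have h1 : x ^ 2 ≤ 1 := pow_le_one₀ hx0.le (by linarith)
    nlinarith
  have e1 : (1 - r) ^ 2 * x ^ 4 / 4 = y ^ (2 : ℝ) := by
    rw [Real.rpow_two, hyd]
    ring
  rw [e1, ← Real.rpow_mul hy0.le]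
  have hα' : 0 < 1 + α := by linarith
  have h2 : 2 * (1 / (1 + α)) ≤ 1 + x ^ 4 := by
    rw [mul_one_div, div_le_iff₀ hα']
    nlinarith
  have h3 : y ^ (1 + x ^ 4) ≤ y ^ (2 * (1 / (1 + α))) :=
    Real.rpow_le_rpow_of_exponent_ge hy0 hy1 h2
  refine le_trans ?_ h3
  rw [Real.rpow_add hy0, Real.rpow_one]
  refine mul_le_mul_of_nonneg_left ?_ hy0.le
  have h4 : (Real.exp (-(1 / x))) ^ (x ^ 4 : ℝ) ≤ y ^ (x ^ 4 : ℝ) :=
    Real.rpow_le_rpow (Real.exp_pos _).le hy hx40.le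
  refine le_trans ?_ h4
  rw [← Real.exp_mul]
  have e2 : -(1 / x) * x ^ 4 = -(x ^ 3) := by field_simp
  rw [e2]
  have h5 := Real.add_one_le_exp (-(x ^ 3))
  have h6 : x ^ 3 ≤ x := by
    have h7 : x ^ 2 ≤ 1 := pow_le_one₀ hx0.le (by linarith)
    calc x ^ 3 = x * x ^ 2 := by ring
      _ ≤ x * 1 := mul_le_mul_of_nonneg_left h7 hx0.le
      _ = x := mul_one x
  linarith

/-- the weight of a step -/
private theorem om_le (x r e B C' κγ HH lG b : ℝ) (hx0 : 0 < x) (hx1 : x ≤ 1 / 4) (hr : 0 < r)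
    (hr1 : r ≤ 1 / 64) (hB : 0 < B) (hC : 0 < C') (hb : b = B / x)
    (hκγ : (1 - r) * x ^ 2 / 2 * (1 - x) ≤ κγ) (hHH0 : 0 ≤ HH) (hH1 : lG - 2 ≤ HH)
    (hlG : b / 2 - C' + 2 ≤ lG) (he : e < 1 - r)
    (hx : x < (1 - r - e) * B / (2 * C' + B)) : e * B * x / 4 ≤ κγ * HH := by
  have hr2 : 0 < 1 - r := by linarith
  have h1 : (1 - r) * x ^ 2 / 2 * (1 - x) * (b / 2 - C') ≤ κγ * HH := by
    have h2 : 0 ≤ (1 - r) * x ^ 2 / 2 * (1 - x) := by
      have : 0 ≤ 1 - x := by linarith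
      positivity
    calc (1 - r) * x ^ 2 / 2 * (1 - x) * (b / 2 - C')
        ≤ (1 - r) * x ^ 2 / 2 * (1 - x) * HH := mul_le_mul_of_nonneg_left (by linarith) h2
      _ ≤ κγ * HH := mul_le_mul_of_nonneg_right hκγ hHH0
  refine le_trans ?_ h1
  rw [lt_div_iff₀ (by positivity)] at hx
  have e1 : (1 - r) * x ^ 2 / 2 * (1 - x) * (b / 2 - C') =
      x / 4 * ((1 - r) * ((1 - x) * (B - 2 * C' * x))) := by
    rw [hb]
    field_simp
    ring
  have e2 : e * B * x / 4 = x / 4 * (e * B) := by ring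
  rw [e1, e2]
  refine mul_le_mul_of_nonneg_left ?_ (by positivity)
  have h3 : (1 - r) * (B - 2 * C' * x - B * x) ≤ (1 - r) * ((1 - x) * (B - 2 * C' * x)) := by
    refine mul_le_mul_of_nonneg_left ?_ hr2.le
    have h4 : 0 ≤ 2 * C' * x ^ 2 := by positivity
    nlinarith
  refine le_trans ?_ h3
  have h5 : (1 - r) * (x * (2 * C' + B)) ≤ 1 * ((1 - r - e) * B) := by
    refine mul_le_mul (by linarith) hx.le (by positivity) (by norm_num)
  nlinarith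

private theorem R_le2 (κγ HH b B v : ℝ) (hκγ1 : κγ ≤ 1) (hHH0 : 0 ≤ HH)
    (hH : HH ≤ 1 + b / 2) (hb : b = B * v) (hv4 : 4 ≤ v) (hv1 : 1 + B / 2 ≤ v) :
    κγ * HH ≤ v ^ 3 := by
  have h8 : κγ * HH ≤ 1 * (1 + b / 2) := mul_le_mul hκγ1 hH hHH0 (by norm_num)
  refine h8.trans ?_
  rw [one_mul, hb]
  have h9 : v ^ 2 ≤ v ^ 3 := pow_le_pow_right₀ (by linarith) (by norm_num)
  refine le_trans ?_ h9
  calc 1 + B * v / 2 ≤ v + B * v / 2 := by linarith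
    _ = (1 + B / 2) * v := by ring
    _ ≤ v * v := mul_le_mul_of_nonneg_right hv1 (by linarith)
    _ = v ^ 2 := by ring

private theorem link_ge2 (α b κ : ℝ) (l N : ℕ) (hα1 : α ≤ 1) (hα0 : 0 < α) (hb : 0 < b)
    (hκ0 : 0 < κ) (hN0 : (0 : ℝ) < N) (hN : (N : ℝ) ≤ Real.exp (b * (l + 3 / 2) / 2))
    (hκ : Real.exp (-(b / 2)) ≤ κ) :
    Real.exp (-(b * (((l + 3 : ℕ) : ℝ) - 1))) ≤ lk α κ N := by
  unfold lk
  have h10 : (Real.exp (b * (l + 3 / 2) / 2)) ^ (-(1 + α)) ≤ (N : ℝ) ^ (-(1 + α)) :=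
    Real.rpow_le_rpow_of_nonpos hN0 hN (by linarith)
  rw [← Real.exp_mul] at h10
  refine le_trans ?_ (mul_le_mul_of_nonneg_left h10 hκ0.le)
  refine le_trans ?_ (mul_le_mul_of_nonneg_right hκ (Real.exp_pos _).le)
  rw [← Real.exp_add]
  apply Real.exp_le_exp.mpr
  push_cast
  have h1 : 0 ≤ b * ((l : ℝ) + 3 / 2) := by positivity
  nlinarith

private theorem p_le2 (α b v u Mn : ℝ) (l c : ℕ) (hα0 : 0 < α) (hα1 : α ≤ 1) (hb : 0 < b)
    (hv0 : 0 < v) (hMn : Mn ≤ Real.exp (b * (l + 3 / 2) / 2))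
    (h3 : v ^ c * Real.exp (-(3 * b / 4)) ≤ u / 8) :
    v ^ c * (Mn * Real.exp (-(b * ((l + 3 : ℕ) : ℝ) / (1 + α)))) ≤ u / 8 := by
  have hα' : 0 < 1 + α := by linarith
  refine le_trans ?_ h3
  calc v ^ c * (Mn * Real.exp (-(b * ((l + 3 : ℕ) : ℝ) / (1 + α))))
      ≤ v ^ c * (Real.exp (b * (l + 3 / 2) / 2) *
          Real.exp (-(b * ((l + 3 : ℕ) : ℝ) / (1 + α)))) := by
        apply mul_le_mul_of_nonneg_left _ (by positivity)
        exact mul_le_mul_of_nonneg_right hMn (Real.exp_pos _).le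
    _ ≤ v ^ c * Real.exp (-(3 * b / 4)) := by
        apply mul_le_mul_of_nonneg_left _ (by positivity)
        rw [← Real.exp_add]
        apply Real.exp_le_exp.mpr
        push_cast
        have h16 : b * ((l : ℝ) + 3) / 2 ≤ b * ((l : ℝ) + 3) / (1 + α) := by
          apply div_le_div_of_nonneg_left (by positivity) hα'
          linarith
        nlinarith

private theorem MX_le (M : ℕ) (b B v : ℝ) (hMX : (M : ℝ) ≤ Real.exp (b / 2)) (hbv : b = B * v)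
    (hB0 : 0 < B) (hv4 : 4 ≤ v) : (M : ℝ) ≤ Real.exp (B / 2 * v ^ 2) := by
  refine hMX.trans (Real.exp_le_exp.2 ?_)
  rw [hbv]
  have h8 : v ≤ v ^ 2 := le_self_pow₀ (by linarith) two_ne_zero
  calc B * v / 2 = B / 2 * v := by ring
    _ ≤ B / 2 * v ^ 2 := mul_le_mul_of_nonneg_left h8 (by positivity)

private theorem e_cancel (x : ℝ) (j : ℕ) (hx : 0 < x) (E : ℝ) :
    x ^ j * ((1 / x) ^ j * E) = E := by
  rw [← mul_assoc, ← mul_pow, mul_one_div, div_self hx.ne', one_pow, one_mul]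

private theorem om_eq (a e kl c0 B x : ℝ) (hkl : 0 < kl) (hc0 : 0 < c0) (hx : 0 < x)
    (ha : a = aX c0 kl x) (hB : B = c0 / (2 * kl)) :
    e * (Lm kl * c0 ^ 2) / a = e * B * x / 4 := by
  rw [ha, hB]
  unfold aX bX Lm
  field_simp
  ring

theorem pf_STX (hHKX : T_HKX) (hTLQ : Pool.Agent.H98.SLN.T_TLQ) (hSTP : Pool.Agent.H98.CE.T_STP)
    (hOMN : Pool.Agent.H98.CE.T_OMN) (hAS1 : Pool.Agent.H98.CE.T_AS1)
    (hAS2 : Pool.Agent.H98.CE.T_AS2) : T_STX := by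
  intro ϑ r U kl c0 e l J ms t hr hr1 hkl hc0 he0 he1 hms hOB ht
  obtain ⟨c, hc⟩ := hOB
  obtain ⟨u, hu⟩ : ∃ u : ℝ, u = 1 - e := ⟨_, rfl⟩
  have hu0 : 0 < u := by rw [hu]; linarith
  have hu1 : u < 1 := by rw [hu]; linarith
  have hms0 : (0 : ℝ) < ms := by exact_mod_cast hms
  have hms1 : (1 : ℝ) ≤ ms := by exact_mod_cast hms
  obtain ⟨B, hB⟩ : ∃ B : ℝ, B = c0 / (2 * kl) := ⟨_, rfl⟩
  have hB0 : 0 < B := by rw [hB]; positivity
  obtain ⟨C', hC'⟩ : ∃ C' : ℝ, C' = 2 - Real.log (u / (8 * ms)) := ⟨_, rfl⟩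
  have hC'0 : 0 < C' := by
    have : Real.log (u / (8 * ms)) ≤ 0 := by
      apply Real.log_nonpos (by positivity)
      rw [div_le_one (by positivity)]
      linarith
    rw [hC']; linarith
  have hr2 : 0 < 1 - r := by linarith
  have ev1 := (hAS1 0 (1 / (16 * ms / u + 16)) (B / 2) (by positivity) (by positivity)).1
  have ev2 := (hAS1 4 ((1 - r) ^ 2 / 4) (B / 2) (by positivity) (by positivity)).1
  have ev3 := (hAS1 c (u / 8) (3 * B / 4) (by positivity) (by positivity)).1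
  have ev4 := (hAS1 2 ((1 - r) / 2) 1 (by positivity) (by positivity)).1
  have ev5 := ev_lt (1 / 4) (by norm_num)
  have ev5' := ev_lt (1 / (ms + (ms + 1) * (B / 2))) (by positivity)
  have ev6 := ev_lt ((1 - r - e) * B / (2 * C' + B))
    (div_pos (mul_pos (by linarith) hB0) (by positivity))
  have ev7 := ev_lt (1 / (1 + B / 2)) (by positivity)
  refine ⟨(c + 3) * ms + 4, ?_⟩
  filter_upwards [hc, ev1, ev2, ev3, ev4, ev5, ev5', ev6, ev7, self_mem_nhdsWithin] with x hx h1 h2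
    h3 h4 h5 h5' h6 h7 hx0
  have hx0' : 0 < x := hx0
  intro K ν α cK τ k q hLX
  obtain ⟨n, hn1, hn2, hobj⟩ := hx K ν α cK τ k q hLX
  have hprob : IsProbabilityMeasure ν := hLX.lm.eg.prob
  have hRG := hLX.rx.rg
  have hk1 : 1 ≤ k := (hTLQ K α cK (x ^ 4) k q hRG).1
  have hHK := (hHKX K α cK (x ^ 4) r k q hLX.rx).1
  have hαlo : 1 - x ^ 4 ≤ α := hRG.α0
  have hα1 : α ≤ 1 := hRG.α1
  have hx4 : x ^ 4 ≤ 1 / 2 ^ 20 := hRG.δ1
  have hα0 : 0 < α := by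
    have : (1 : ℝ) / 2 ^ 20 < 1 := by norm_num
    linarith
  have hα' : 0 < 1 + α := by linarith
  obtain ⟨b, hb⟩ : ∃ b : ℝ, b = bX c0 kl x := ⟨_, rfl⟩
  obtain ⟨v, hv⟩ : ∃ v : ℝ, v = 1 / x := ⟨_, rfl⟩
  obtain ⟨κ, hκ⟩ : ∃ κ : ℝ, κ = (1 - r) ^ 2 * x ^ 4 / 4 := ⟨_, rfl⟩
  obtain ⟨γ, hγ⟩ : ∃ γ : ℝ, γ = 1 / (1 + α) := ⟨_, rfl⟩
  have hbB : b = B / x := by
    rw [hb, hB]
    unfold bX
    field_simp
  have hbv : b = B * v := by rw [hbB, hv]; ring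
  have hb0 : 0 < b := by rw [hbB]; positivity
  have hv0 : 0 < v := by rw [hv]; positivity
  have hxv : x * v = 1 := by rw [hv]; field_simp
  have hv4 : 4 ≤ v := by rw [hv, le_div_iff₀ hx0']; linarith
  have hvms' : (ms : ℝ) + (ms + 1) * (B / 2) ≤ v := by
    rw [hv, le_div_iff₀ hx0']
    rw [lt_div_iff₀ (by positivity)] at h5'
    linarith
  have hB2 : 0 ≤ ((ms : ℝ) + 1) * (B / 2) := by positivity
  have hvms : (ms : ℝ) ≤ v := by linarith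
  have hvη : ((ms : ℝ) + 1) * (B / 2) ≤ v := by linarith
  have hv1η : 1 + B / 2 ≤ v := by
    rw [hv, le_div_iff₀ hx0']
    rw [lt_div_iff₀ (by positivity)] at h7
    linarith
  have hX : 16 * ms / u + 16 ≤ Real.exp (b / 2) := by
    have e1 : -(B / 2 / x) = -(b / 2) := by rw [hbB]; ring
    rw [pow_zero, one_mul, e1, Real.exp_neg] at h1
    have h8 : 0 < 16 * (ms : ℝ) / u + 16 := by positivity
    rw [one_div] at h1
    exact (inv_le_inv₀ (Real.exp_pos _) h8).1 h1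
  obtain ⟨M, G, A, hM1, hG1, hGM, hA, hMX, hAM, hGX, hGX'⟩ :=
    numbers (Real.exp (b / 2)) u ms hms hu0 hu1 hX
  have hκ0 : 0 < κ := by rw [hκ]; positivity
  have hκ1 : κ ≤ 1 := by
    rw [hκ]
    have h8 : (1 - r) ^ 2 ≤ 1 := pow_le_one₀ hr2.le (by linarith)
    have h9 : (1 - r) ^ 2 * x ^ 4 ≤ 1 * 1 :=
      mul_le_mul h8 (hx4.trans (by norm_num)) (by positivity) (by norm_num)
    linarith
  have hγ0 : 0 < γ := by rw [hγ]; positivity
  have hκγ1 : κ ^ γ ≤ 1 := Real.rpow_le_one hκ0.le hκ1 hγ0.le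
  have hy : Real.exp (-(1 / x)) ≤ (1 - r) * x ^ 2 / 2 := by
    have h8 : x ^ 2 * ((1 / x) ^ 2 * Real.exp (-(1 / x))) ≤ x ^ 2 * ((1 - r) / 2) :=
      mul_le_mul_of_nonneg_left h4 (by positivity)
    rw [e_cancel x 2 hx0'] at h8
    linarith
  have hκγ : (1 - r) * x ^ 2 / 2 * (1 - x) ≤ κ ^ γ := by
    rw [hκ, hγ]
    exact kpow x r α hx0' h5.le hr hr1 hαlo hα1 hy
  obtain ⟨HH, hHH⟩ : ∃ HH : ℝ, HH = ∑ g ∈ Finset.Ico 2 (G + 2), 1 / ((g : ℝ) + 1) := ⟨_, rfl⟩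
  obtain ⟨hH1, hH2⟩ := (hAS2 α hα0).2.2 G hG1
  rw [← hHH] at hH1 hH2
  have hHH0 : 0 ≤ HH := by rw [hHH]; exact Finset.sum_nonneg fun g _ => by positivity
  have hG0 : (0 : ℝ) < G := by exact_mod_cast hG1
  have hlogG : b / 2 - C' + 2 ≤ Real.log G := by
    have h8 : Real.log (u / (8 * ms) * Real.exp (b / 2)) ≤ Real.log G :=
      Real.log_le_log (by positivity) hGX
    rw [Real.log_mul (by positivity) (by positivity), Real.log_exp] at h8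
    rw [hC']; linarith
  have hlogG2 : Real.log G ≤ b / 2 := by
    have := Real.log_le_log hG0 hGX'
    rwa [Real.log_exp] at this
  have hω := om_le x r e B C' (κ ^ γ) HH (Real.log G) b hx0' h5.le hr hr1 hB0 hC'0 hbB hκγ hHH0
    hH1 hlogG he1 h6
  have hR := R_le2 (κ ^ γ) HH b B v hκγ1 hHH0 (by linarith) hbv hv4 hv1η
  have hn0 : (0 : ℝ) < n := by exact_mod_cast hn1
  rw [← hb] at hn2
  have hMn : (M : ℝ) * n ≤ Real.exp (b * (l + 3 / 2) / 2) := by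
    calc (M : ℝ) * n ≤ Real.exp (b / 2) * Real.exp (b * (l + 1 / 2) / 2) :=
          mul_le_mul hMX hn2 hn0.le (Real.exp_pos _).le
      _ = Real.exp (b * (l + 3 / 2) / 2) := by rw [← Real.exp_add]; congr 1; ring
  have hκe : Real.exp (-(b / 2)) ≤ κ := by
    have e1 : -(B / 2 / x) = -(b / 2) := by rw [hbB]; ring
    rw [e1] at h2
    have h8 : x ^ 4 * ((1 / x) ^ 4 * Real.exp (-(b / 2))) ≤ x ^ 4 * ((1 - r) ^ 2 / 4) :=
      mul_le_mul_of_nonneg_left h2 (by positivity)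
    rw [e_cancel x 4 hx0'] at h8
    rw [hκ]
    linarith
  have h3' : v ^ c * Real.exp (-(3 * b / 4)) ≤ u / 8 := by
    have e1 : -(3 * B / 4 / x) = -(3 * b / 4) := by rw [hbB]; ring
    rw [e1, ← hv] at h3
    exact h3
  have hlink := link_ge2 α b κ l ((G + 2) * n) hα1 hα0 hb0 hκ0 (by
      rw [Nat.cast_mul]; positivity) (by
      refine le_trans ?_ hMn
      have : ((G + 2 : ℕ) : ℝ) ≤ M := by exact_mod_cast hGM
      rw [Nat.cast_mul]
      exact mul_le_mul_of_nonneg_right this hn0.le) hκe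
  have hp := p_le2 α b v u (M * n) l c hα0 hα1 hb0 hv0 hMn h3'
  have hp' : (M : ℝ) * (n * v ^ c * Real.exp (-(b * ((l + 3 : ℕ) : ℝ) / (1 + α)))) ≤ u / 8 := by
    refine le_trans (le_of_eq ?_) hp
    ring
  have hE1 : (1 : ℝ) ≤ Real.exp (v ^ c) := Real.one_le_exp (by positivity)
  have hC1 : (1 : ℝ) ≤ v ^ c := one_le_pow₀ (by linarith)
  have hR1 : (1 : ℝ) ≤ v ^ 3 := one_le_pow₀ (by linarith)
  rw [← hv, ← hb] at hobj
  rw [← hκ] at hHK
  obtain ⟨a, ha⟩ : ∃ a : ℝ, a = aX c0 kl x := ⟨_, rfl⟩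
  have ha0 : 0 < a := by
    rw [ha]
    unfold aX
    rw [← hb]
    positivity
  rw [← ha] at hobj
  have hωe : e * (Lm kl * c0 ^ 2) / a = e * B * x / 4 := om_eq a e kl c0 B x hkl hc0 hx0' ha hB
  have hstep := hSTP K ν k α b κ n J (fun j => a * t j) (v ^ c) (Real.exp (v ^ c)) hk1 hα0
    hb0.le hκ0 hκ1 hHK hn1 hC1 hE1 hobj (fun j => mul_nonneg ha0.le (ht j))
    (l + 3) M G A ms (by omega) hms hG1 hA hlink (e * (Lm kl * c0 ^ 2) / a) e (u / 8) (v ^ 3)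
    (by rw [hωe]; positivity) (by rw [← hγ, ← hHH, hωe]; exact hω) hp' he0.le
    (by linarith) (by
      have : e = 1 - u := by rw [hu]; ring
      rw [this]; exact hAM) hR1 (by rw [← hγ, ← hHH]; exact hR)
  refine ⟨M * n, Nat.mul_pos hM1 hn1, ?_, ?_⟩
  · push_cast
    rw [← hb]
    have : b * ((l : ℝ) + 1 + 1 / 2) / 2 = b * (l + 3 / 2) / 2 := by ring
    rw [this]
    exact hMn
  · rw [← hv, ← hb, ← ha]
    have hMX' : (M : ℝ) ≤ Real.exp (B / 2 * v ^ 2) := MX_le M b B v hMX hbv hB0 hv4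
    refine hOMN K ν k α b (M * n) (ms * J) (ms * J) _ _ _ _ _ _ hstep le_rfl ?_
      (const_one v c ms hv4 hvms)
      (const_two v (B / 2 * v ^ 2) (B / 2) c ms M hms hv4 hvms hvη rfl hMX')
    intro j _
    exact (nx_scale t (l + 3) ms a (e * (Lm kl * c0 ^ 2)) e ha0.ne' j).ge

end Pool.Agent.H80.EX
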